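import Pool.Agent.Helper35.HL.Stm

/-! The numbers of homomorphisms to the small target (piece NUM). -/

set_option autoImplicit false

namespace Pool.Agent.Helper10K1.HL

open Pool.Agent.Helper35.HL Finset

/-- maps to a sigma type -/
def eqv {ι I : Type} (α : I → Type) (P : (ι → I) → Prop) :
    {f : ι → (Σ i, α i) // P (fun u => (f u).1)} ≃ (Σ g : {g : ι → I // P g}, ∀ u, α (g.1 u)) where
  toFun f := ⟨⟨fun u => (f.1 u).1, f.2⟩, fun u => (f.1 u).2⟩
  invFun p := ⟨fun u => ⟨p.1.1 u, p.2 u⟩, p.1.2⟩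
  left_inv _ := rfl
  right_inv _ := rfl

lemma hc_eq (G : SimpleGraph (Fin 7)) (P : (Fin 7 → Fin 5) → Prop) [DecidablePred P]
    (hP : ∀ g : Fin 7 → Fin 5, (∀ u v, G.Adj u v → (SimpleGraph.pathGraph 5).Adj (g u) (g v)) ↔ P g) :
    hc G R1 = ∑ g : Fin 7 → Fin 5, if P g then ∏ u, W (g u) else 0 := by
  have e1 : {f : Fin 7 → X1 // ∀ u v, G.Adj u v → R1 (f u) (f v)} ≃
      (Σ g : {g : Fin 7 → Fin 5 // P g}, ∀ u, Fin (W (g.1 u))) :=
    (Equiv.subtypeEquivRight fun (f : Fin 7 → X1) => hP (fun u => (f u).1)).trans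
      (eqv (fun i => Fin (W i)) P)
  unfold hc
  rw [Nat.card_congr e1, Nat.card_eq_fintype_card, Fintype.card_sigma]
  simp only [Fintype.card_pi, Fintype.card_fin]
  rw [← Finset.sum_filter, Finset.sum_subtype (univ.filter P) (p := P) (by simp)]

lemma sum_cons {n : ℕ} (F : (Fin (n + 1) → Fin 5) → ℕ) :
    ∑ g, F g = ∑ a : Fin 5, ∑ h : Fin n → Fin 5, F (Fin.cons a h) := by
  rw [← (Fin.consEquiv (fun _ : Fin (n + 1) => Fin 5)).sum_comp F, Fintype.sum_prod_type]
  rfl

lemma sum7 (F : (Fin 7 → Fin 5) → ℕ) :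
    ∑ g, F g = ∑ a, ∑ b, ∑ c, ∑ d, ∑ e, ∑ f, ∑ g, F ![a, b, c, d, e, f, g] := by
  simp only [sum_cons]
  simp only [Finset.univ_unique, Finset.sum_singleton]
  rfl

/-- adjacency of the path on five vertices, decidable form -/
def A (a b : Fin 5) : Bool := a.val + 1 == b.val || b.val + 1 == a.val

lemma A_iff (a b : Fin 5) : (SimpleGraph.pathGraph 5).Adj a b ↔ A a b = true := by
  rw [SimpleGraph.pathGraph_adj]
  simp [A]

lemma ite_and' (b c : Bool) (x : ℕ) : (if (b && c) = true then x else 0) =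
    if b then (if c then x else 0) else 0 := by
  cases b <;> cases c <;> rfl

lemma T0_hom (g : Fin 7 → Fin 5) :
    (∀ u v, T0.Adj u v → (SimpleGraph.pathGraph 5).Adj (g u) (g v)) ↔
    (A (g 0) (g 1) && (A (g 0) (g 2) && (A (g 2) (g 3) && (A (g 0) (g 4) && (A (g 4) (g 5) &&
      A (g 5) (g 6)))))) = true := by
  simp only [Bool.and_eq_true, ← A_iff]
  constructor
  · intro h
    refine ⟨h 0 1 ?_, h 0 2 ?_, h 2 3 ?_, h 0 4 ?_, h 4 5 ?_, h 5 6 ?_⟩ <;>
      exact ⟨by decide, by decide⟩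
  · rintro ⟨h1, h2, h3, h4, h5, h6⟩
    have key : ∀ v : Fin 7, par v ≠ v → (SimpleGraph.pathGraph 5).Adj (g (par v)) (g v) := by
      intro v hv
      fin_cases v
      · exact absurd rfl hv
      · exact h1
      · exact h2
      · exact h3
      · exact h4
      · exact h5
      · exact h6
    rintro u v ⟨h, h' | h'⟩
    · rw [← h']
      rw [← h'] at h
      exact (key u h.symm).symm
    · rw [← h']
      rw [← h'] at h
      exact key v h

lemma path_hom (g : Fin 7 → Fin 5) :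
    (∀ u v, (SimpleGraph.pathGraph 7).Adj u v → (SimpleGraph.pathGraph 5).Adj (g u) (g v)) ↔
    (A (g 0) (g 1) && (A (g 1) (g 2) && (A (g 2) (g 3) && (A (g 3) (g 4) && (A (g 4) (g 5) &&
      A (g 5) (g 6)))))) = true := by
  simp only [Bool.and_eq_true, ← A_iff]
  constructor
  · intro h
    refine ⟨h 0 1 ?_, h 1 2 ?_, h 2 3 ?_, h 3 4 ?_, h 4 5 ?_, h 5 6 ?_⟩ <;>
      (rw [SimpleGraph.pathGraph_adj]; decide)
  · rintro ⟨h1, h2, h3, h4, h5, h6⟩
    have key : ∀ u v : Fin 7, u.val + 1 = v.val → (SimpleGraph.pathGraph 5).Adj (g u) (g v) := by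
      intro u v hv
      fin_cases u <;> fin_cases v <;> first | exact absurd hv (by decide) | assumption
    intro u v h
    rw [SimpleGraph.pathGraph_adj] at h
    rcases h with h | h
    · exact key u v h
    · exact (key v u h).symm

lemma num_T : hc T0 R1 = 71853008 := by
  rw [hc_eq T0 _ T0_hom, sum7]
  simp only [ite_and', Fin.prod_univ_seven, Matrix.cons_val]
  simp only [Finset.sum_ite_irrel, Finset.sum_const_zero]
  decide +kernel

lemma num_P : hc (SimpleGraph.pathGraph 7) R1 = 71853400 := by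
  rw [hc_eq _ _ path_hom, sum7]
  simp only [ite_and', Fin.prod_univ_seven, Matrix.cons_val]
  simp only [Finset.sum_ite_irrel, Finset.sum_const_zero]
  decide +kernel

/-- The small target has fewer homomorphisms from the spider than from the path. -/
theorem t_NUM : S_NUM := by
  unfold S_NUM
  rw [num_T, num_P]
  norm_num

end Pool.Agent.Helper10K1.HL
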